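import Pool.Agent.Helper15.T8.Stmts

set_option autoImplicit false

/-! Module TAIL: the deficiency is large and at most of order `√n` for most graphs. -/

open Finset

namespace Pool.Agent.Helper19.T8

open Pool.Agent.Helper15.T8

/-- number of graphs with deficiency `i` -/
def bb (n D : ℕ) (W : Finset (Fin n)) (i : ℕ) : ℕ :=
  ((GW n D W).filter (fun E => FJ n D W E.card = i)).card

theorem mem_GJ {n D : ℕ} {W : Finset (Fin n)} {E : Finset (Sym2 (Fin n))} {j : ℕ} :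
    E ∈ GJ n D W j ↔ E ∈ GW n D W ∧ E.card = j := by
  unfold GJ
  rw [Finset.mem_filter]

theorem le_of_mem (hB : ST_BAS) {n D : ℕ} {W : Finset (Fin n)} {E : Finset (Sym2 (Fin n))}
    (hE : E ∈ GW n D W) : 2 * E.card ≤ (n - W.card) * D :=
  (hB n D W E.card E (mem_GJ.2 ⟨hE, rfl⟩)).1

theorem GJ_le (n D : ℕ) (W : Finset (Fin n)) (j : ℕ) : (GJ n D W j).card ≤ (GW n D W).card := by
  unfold GJ
  exact Finset.card_filter_le _ _

theorem bb_eq (hB : ST_BAS) {n D : ℕ} {W : Finset (Fin n)} {i j : ℕ}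
    (hij : 2 * j + i = (n - W.card) * D) : bb n D W i = (GJ n D W j).card := by
  unfold bb
  congr 1
  ext E
  rw [Finset.mem_filter, mem_GJ]
  constructor
  · rintro ⟨h1, h2⟩
    refine ⟨h1, ?_⟩
    have h3 := le_of_mem hB h1
    unfold FJ at h2
    omega
  · rintro ⟨h1, h2⟩
    refine ⟨h1, ?_⟩
    unfold FJ
    omega

theorem exists_of_pos (hB : ST_BAS) {n D : ℕ} {W : Finset (Fin n)} {i : ℕ}
    (h : bb n D W i ≠ 0) : ∃ j, 2 * j + i = (n - W.card) * D := by
  unfold bb at h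
  obtain ⟨E, hE⟩ := Finset.card_pos.1 (Nat.pos_of_ne_zero h)
  rw [Finset.mem_filter] at hE
  have h3 := le_of_mem hB hE.1
  refine ⟨E.card, ?_⟩
  have h2 := hE.2
  unfold FJ at h2
  omega

theorem stepA (hR : ST_RT1) (hB : ST_BAS) (n D : ℕ) (W : Finset (Fin n)) (i : ℕ) :
    ((n - W.card) * D - i) * bb n D W i ≤ (i + 2) ^ 2 * (GW n D W).card := by
  by_cases h : bb n D W i = 0
  · rw [h, mul_zero]
    exact Nat.zero_le _
  · obtain ⟨j, hj⟩ := exists_of_pos hB h
    rw [bb_eq hB hj]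
    by_cases hj0 : j = 0
    · subst hj0
      have : (n - W.card) * D - i = 0 := by omega
      rw [this, zero_mul]
      exact Nat.zero_le _
    · have h1 := hR n D W j (by omega) (by omega)
      have h2 : FJ n D W j = i := by
        unfold FJ
        omega
      have h3 : (n - W.card) * D - i = 2 * j := by omega
      rw [h2] at h1
      rw [h3]
      exact h1.trans (Nat.mul_le_mul_left _ (GJ_le n D W _))

theorem stepB (hR : ST_RT2) (hB : ST_BAS) (n D : ℕ) (hD : 1 ≤ D) (hn : 4 ≤ n)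
    (W : Finset (Fin n)) (i : ℕ) (hi : 2 * (D : ℝ) ^ 2 * Real.sqrt n ≤ ((i + 2 : ℕ) : ℝ)) :
    (bb n D W (i + 2) : ℝ) ≤ (bb n D W i : ℝ) / 2 := by
  by_cases h : bb n D W (i + 2) = 0
  · rw [h]
    have : (0 : ℝ) ≤ (bb n D W i : ℝ) := Nat.cast_nonneg _
    push_cast
    linarith
  · obtain ⟨j', hj'⟩ := exists_of_pos hB h
    have hj : 2 * (j' + 1) + i = (n - W.card) * D := by omega
    rw [bb_eq hB hj', bb_eq hB hj]
    have hD' : (1 : ℝ) ≤ D := by exact_mod_cast hD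
    have hn' : (4 : ℝ) ≤ n := by exact_mod_cast hn
    have hs : (2 : ℝ) ≤ Real.sqrt n := by
      rw [Real.le_sqrt (by norm_num) (by linarith)]
      linarith
    have hs2 : Real.sqrt n ^ 2 = n := Real.sq_sqrt (by linarith)
    have hF : FJ n D W (j' + 1) = i := by
      unfold FJ
      omega
    have hDi : D * (D + 1) ≤ i + 2 := by
      have : ((D * (D + 1) : ℕ) : ℝ) ≤ ((i + 2 : ℕ) : ℝ) := by
        refine le_trans ?_ hi
        push_cast
        have h4 : 2 * (D : ℝ) ^ 2 * 2 ≤ 2 * (D : ℝ) ^ 2 * Real.sqrt n := by gcongr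
        nlinarith
      exact_mod_cast this
    have h1 := hR n D W (j' + 1) hD (by omega) (by omega) (by rw [hF]; exact hDi)
    rw [hF, Nat.add_sub_cancel] at h1
    set x : ℝ := ((i + 2 : ℕ) : ℝ) / D with hx
    have hx1 : 2 * (D : ℝ) * Real.sqrt n ≤ x := by
      rw [hx, le_div_iff₀ (by linarith)]
      calc 2 * (D : ℝ) * Real.sqrt n * D = 2 * (D : ℝ) ^ 2 * Real.sqrt n := by ring
        _ ≤ _ := hi
    have hx2 : 2 * ((D : ℝ) + 1) ≤ x := by
      have : 2 * (D : ℝ) * 2 ≤ 2 * (D : ℝ) * Real.sqrt n := by gcongr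
      linarith
    have hx3 : 2 * (n : ℝ) * D ≤ x * (x - 1 - D) := by
      have h5 : x / 2 ≤ x - 1 - D := by linarith
      have hx0 : 0 ≤ x := by linarith
      have h6 : x * (x / 2) ≤ x * (x - 1 - D) := mul_le_mul_of_nonneg_left h5 hx0
      have h7 : (2 * (D : ℝ) * Real.sqrt n) ^ 2 ≤ x ^ 2 := by gcongr
      have h8 : (2 * (D : ℝ) * Real.sqrt n) ^ 2 = 4 * (D : ℝ) ^ 2 * n := by
        calc (2 * (D : ℝ) * Real.sqrt n) ^ 2 = 4 * (D : ℝ) ^ 2 * Real.sqrt n ^ 2 := by ring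
          _ = _ := by rw [hs2]
      rw [h8] at h7
      have h9 : (D : ℝ) * n ≤ (D : ℝ) ^ 2 * n := by
        have : (D : ℝ) ≤ (D : ℝ) ^ 2 := by nlinarith
        exact mul_le_mul_of_nonneg_right this (by linarith)
      nlinarith
    have hj2 : 2 * (((j' + 1 : ℕ) : ℝ)) ≤ (n : ℝ) * D := by
      have h10 : 2 * (j' + 1) ≤ n * D := by
        have : (n - W.card) * D ≤ n * D := Nat.mul_le_mul_right _ (Nat.sub_le _ _)
        omega
      exact_mod_cast h10
    have hg0 : (0 : ℝ) ≤ ((GJ n D W j').card : ℝ) := Nat.cast_nonneg _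
    have hg1 : (0 : ℝ) ≤ ((GJ n D W (j' + 1)).card : ℝ) := Nat.cast_nonneg _
    have h11 : 2 * (n : ℝ) * D * ((GJ n D W j').card : ℝ) ≤
        (n : ℝ) * D * ((GJ n D W (j' + 1)).card : ℝ) :=
      calc 2 * (n : ℝ) * D * ((GJ n D W j').card : ℝ)
          ≤ x * (x - 1 - D) * ((GJ n D W j').card : ℝ) := mul_le_mul_of_nonneg_right hx3 hg0
        _ ≤ 2 * ((j' + 1 : ℕ) : ℝ) * ((GJ n D W (j' + 1)).card : ℝ) := h1
        _ ≤ _ := mul_le_mul_of_nonneg_right hj2 hg1
    have hnD : (0 : ℝ) < (n : ℝ) * D := by nlinarith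
    have h12 : (n : ℝ) * D * (2 * ((GJ n D W j').card : ℝ)) ≤
        (n : ℝ) * D * ((GJ n D W (j' + 1)).card : ℝ) := by linarith
    have h13 := le_of_mul_le_mul_left h12 hnD
    linarith

theorem stepB_iter (hR : ST_RT2) (hB : ST_BAS) (n D : ℕ) (hD : 1 ≤ D) (hn : 4 ≤ n)
    (W : Finset (Fin n)) (i t : ℕ) (hi : 2 * (D : ℝ) ^ 2 * Real.sqrt n ≤ (i : ℝ)) :
    (bb n D W (i + 2 * t) : ℝ) ≤ (bb n D W i : ℝ) * (1 / 2) ^ t := by
  induction t with
  | zero => simp
  | succ t ih =>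
    have h1 := stepB hR hB n D hD hn W (i + 2 * t) (by
      refine hi.trans ?_
      push_cast
      linarith [Nat.cast_nonneg (α := ℝ) t])
    have h2 : i + 2 * (t + 1) = i + 2 * t + 2 := by ring
    rw [h2, pow_succ]
    linarith

theorem FJ_le (n D : ℕ) (W : Finset (Fin n)) (j : ℕ) : FJ n D W j ≤ (n - W.card) * D := by
  unfold FJ
  exact Nat.sub_le _ _

theorem tail_eq (n D : ℕ) (W : Finset (Fin n)) (T : ℕ) :
    ((GW n D W).filter (fun E => T ≤ FJ n D W E.card)).card =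
      ∑ i ∈ range ((n - W.card) * D + 1), bb n D W (T + i) := by
  rw [Finset.card_eq_sum_card_fiberwise (f := fun E => FJ n D W E.card - T)
    (t := range ((n - W.card) * D + 1))]
  · refine Finset.sum_congr rfl fun i _ => ?_
    unfold bb
    congr 1
    ext E
    simp only [Finset.mem_filter]
    constructor
    · rintro ⟨⟨h1, h2⟩, h3⟩
      exact ⟨h1, by omega⟩
    · rintro ⟨h1, h2⟩
      exact ⟨⟨h1, by omega⟩, by omega⟩
  · intro E _
    have := FJ_le n D W E.card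
    simp only [Finset.coe_range, Set.mem_Iio]
    omega

theorem head_eq (n D : ℕ) (W : Finset (Fin n)) (F₀ : ℕ) :
    ((GW n D W).filter (fun E => FJ n D W E.card ≤ F₀)).card =
      ∑ i ∈ range (F₀ + 1), bb n D W i := by
  rw [Finset.card_eq_sum_card_fiberwise (f := fun E => FJ n D W E.card)
    (t := range (F₀ + 1))]
  · refine Finset.sum_congr rfl fun i hi => ?_
    rw [Finset.mem_range] at hi
    unfold bb
    congr 1
    ext E
    simp only [Finset.mem_filter]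
    constructor
    · rintro ⟨⟨h1, h2⟩, h3⟩
      exact ⟨h1, h3⟩
    · rintro ⟨h1, h2⟩
      exact ⟨⟨h1, by omega⟩, h2⟩
  · intro E hE
    simp only [Finset.coe_filter, Set.mem_ofPred_eq] at hE
    simp only [Finset.coe_range, Set.mem_Iio]
    omega

theorem st_TAIL (hR1 : ST_RT1) (hR2 : ST_RT2) (hB : ST_BAS) : ST_TAIL := by
  intro D η F₀ hD hη
  obtain ⟨t, ht⟩ : ∃ t : ℕ, ((1 : ℝ) / 2) ^ t < η / 2 :=
    exists_pow_lt_of_lt_one (by linarith) (by norm_num)
  obtain ⟨Q, hQ⟩ : ∃ Q : ℕ, 2 * (((F₀ : ℝ) + 1) * ((F₀ : ℝ) + 2) ^ 2) / η ≤ Q := exists_nat_ge _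
  refine ⟨2 * (D : ℝ) ^ 2 + 2 * t + 1, Q + F₀ + 5, ?_⟩
  intro n W hn hW
  have hGW : (0 : ℝ) ≤ ((GW n D W).card : ℝ) := Nat.cast_nonneg _
  have hND : n - 1 ≤ (n - W.card) * D := by
    calc n - 1 ≤ (n - W.card) * 1 := by omega
      _ ≤ (n - W.card) * D := Nat.mul_le_mul_left _ hD
  -- the head
  have hhead : (((GW n D W).filter (fun E => FJ n D W E.card ≤ F₀)).card : ℝ) ≤
      η / 2 * ((GW n D W).card : ℝ) := by
    rw [head_eq]
    have h1 : ∀ i ∈ range (F₀ + 1), (Q : ℝ) * (bb n D W i : ℝ) ≤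
        ((F₀ : ℝ) + 2) ^ 2 * ((GW n D W).card : ℝ) := by
      intro i hi
      rw [Finset.mem_range] at hi
      have h2 := stepA hR1 hB n D W i
      have h3 : Q ≤ (n - W.card) * D - i := by omega
      have h4 : Q * bb n D W i ≤ (F₀ + 2) ^ 2 * (GW n D W).card := by
        calc Q * bb n D W i ≤ ((n - W.card) * D - i) * bb n D W i := Nat.mul_le_mul_right _ h3
          _ ≤ (i + 2) ^ 2 * (GW n D W).card := h2
          _ ≤ _ := Nat.mul_le_mul_right _ (Nat.pow_le_pow_left (by omega) 2)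
      exact_mod_cast h4
    have h5 := Finset.sum_le_sum h1
    rw [← Finset.mul_sum, Finset.sum_const, Finset.card_range, nsmul_eq_mul] at h5
    push_cast at h5 ⊢
    have hQ0 : (0 : ℝ) < Q := by
      refine lt_of_lt_of_le ?_ hQ
      positivity
    have h6 : ((F₀ : ℝ) + 1) * ((F₀ : ℝ) + 2) ^ 2 ≤ (Q : ℝ) * (η / 2) := by
      rw [div_le_iff₀ hη] at hQ
      linarith
    have h7 : (Q : ℝ) * ∑ i ∈ range (F₀ + 1), (bb n D W i : ℝ) ≤
        (Q : ℝ) * (η / 2 * ((GW n D W).card : ℝ)) := by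
      calc (Q : ℝ) * ∑ i ∈ range (F₀ + 1), (bb n D W i : ℝ)
          ≤ ((F₀ : ℝ) + 1) * (((F₀ : ℝ) + 2) ^ 2 * ((GW n D W).card : ℝ)) := h5
        _ = ((F₀ : ℝ) + 1) * ((F₀ : ℝ) + 2) ^ 2 * ((GW n D W).card : ℝ) := by ring
        _ ≤ (Q : ℝ) * (η / 2) * ((GW n D W).card : ℝ) := mul_le_mul_of_nonneg_right h6 hGW
        _ = _ := by ring
    exact le_of_mul_le_mul_left h7 hQ0
  -- the tail
  obtain ⟨T, hT1, hT2⟩ : ∃ T : ℕ, 2 * (D : ℝ) ^ 2 * Real.sqrt n ≤ T ∧
      (T : ℝ) < 2 * (D : ℝ) ^ 2 * Real.sqrt n + 1 :=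
    ⟨⌈2 * (D : ℝ) ^ 2 * Real.sqrt n⌉₊, Nat.le_ceil _, Nat.ceil_lt_add_one (by positivity)⟩
  have htail : (((GW n D W).filter (fun E => (2 * (D : ℝ) ^ 2 + 2 * t + 1) * Real.sqrt n <
      (FJ n D W E.card : ℝ))).card : ℝ) ≤ η / 2 * ((GW n D W).card : ℝ) := by
    have hs1 : (1 : ℝ) ≤ Real.sqrt n := by
      rw [Real.one_le_sqrt]
      have : 1 ≤ n := by omega
      exact_mod_cast this
    have h1 : ((GW n D W).filter (fun E => (2 * (D : ℝ) ^ 2 + 2 * t + 1) * Real.sqrt n <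
        (FJ n D W E.card : ℝ))).card ≤
        ((GW n D W).filter (fun E => T + 2 * t ≤ FJ n D W E.card)).card := by
      refine Finset.card_le_card ?_
      intro E hE
      rw [Finset.mem_filter] at hE ⊢
      refine ⟨hE.1, ?_⟩
      have h2 : ((T + 2 * t : ℕ) : ℝ) ≤ (FJ n D W E.card : ℝ) := by
        refine le_trans ?_ hE.2.le
        push_cast
        have h3 : (2 * (t : ℝ) + 1) * 1 ≤ (2 * (t : ℝ) + 1) * Real.sqrt n := by gcongr
        nlinarith
      exact_mod_cast h2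
    have h4 : (((GW n D W).filter (fun E => T + 2 * t ≤ FJ n D W E.card)).card : ℝ) ≤
        (1 / 2) ^ t * ((GW n D W).card : ℝ) := by
      rw [tail_eq]
      push_cast
      have h5 : ∀ i ∈ range ((n - W.card) * D + 1), (bb n D W (T + 2 * t + i) : ℝ) ≤
          (1 / 2) ^ t * (bb n D W (T + i) : ℝ) := by
        intro i _
        have h6 := stepB_iter hR2 hB n D hD (by omega) W (T + i) t (by
          refine hT1.trans ?_
          push_cast
          linarith [Nat.cast_nonneg (α := ℝ) i])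
        have h7 : T + 2 * t + i = T + i + 2 * t := by ring
        rw [h7]
        linarith
      refine (Finset.sum_le_sum h5).trans ?_
      rw [← Finset.mul_sum]
      refine mul_le_mul_of_nonneg_left ?_ (by positivity)
      have h8 := tail_eq n D W T
      have h9 : ((GW n D W).filter (fun E => T ≤ FJ n D W E.card)).card ≤ (GW n D W).card :=
        Finset.card_filter_le _ _
      rw [h8] at h9
      exact_mod_cast h9
    calc (((GW n D W).filter (fun E => (2 * (D : ℝ) ^ 2 + 2 * t + 1) * Real.sqrt n <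
        (FJ n D W E.card : ℝ))).card : ℝ)
        ≤ (((GW n D W).filter (fun E => T + 2 * t ≤ FJ n D W E.card)).card : ℝ) := by
          exact_mod_cast h1
      _ ≤ (1 / 2) ^ t * ((GW n D W).card : ℝ) := h4
      _ ≤ _ := mul_le_mul_of_nonneg_right ht.le hGW
  rw [Finset.filter_or]
  have hU := Finset.card_union_le
    ((GW n D W).filter (fun E => FJ n D W E.card ≤ F₀))
    ((GW n D W).filter (fun E => (2 * (D : ℝ) ^ 2 + 2 * t + 1) * Real.sqrt n <
        (FJ n D W E.card : ℝ)))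
  have hU' : ((((GW n D W).filter (fun E => FJ n D W E.card ≤ F₀)) ∪
    ((GW n D W).filter (fun E => (2 * (D : ℝ) ^ 2 + 2 * t + 1) * Real.sqrt n <
        (FJ n D W E.card : ℝ)))).card : ℝ) ≤
    (((GW n D W).filter (fun E => FJ n D W E.card ≤ F₀)).card : ℝ) +
    (((GW n D W).filter (fun E => (2 * (D : ℝ) ^ 2 + 2 * t + 1) * Real.sqrt n <
        (FJ n D W E.card : ℝ))).card : ℝ) := by exact_mod_cast hU
  linarith

end Pool.Agent.Helper19.T8
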